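import Pool.Agent.MP_961ca8_al.H15.Spec

/-! The `q`-th root maps and the ideal estimate. -/

namespace Pool.Agent.MP_961ca8_al.H15

open MvPolynomial

theorem ph : PHStmt := by
  intro p _ e v d hv hd
  have hq : 0 < p ^ e := by omega
  let σ : Polynomial (ZMod p) →ₗ[ZMod p] Polynomial (ZMod p) :=
    (Polynomial.basisMonomials _).repr.symm.toLinearMap ∘ₗ
      Finsupp.lcomapDomain (fun j => p ^ e * j + v)
        (fun i j h => Nat.eq_of_mul_eq_mul_left hq (add_right_cancel h)) ∘ₗ (Polynomial.basisMonomials _).repr.toLinearMap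
  have hσ : ∀ g j, (σ g).coeff j = g.coeff (p ^ e * j + v) := fun _ _ => rfl
  let φ : P (Polynomial (ZMod p)) →+ P (Polynomial (ZMod p)) :=
    ((basisMonomials _ _).repr.symm.toLinearMap.toAddMonoidHom.comp
      (Finsupp.mapRange.addMonoidHom σ.toAddMonoidHom)).comp
      (Finsupp.lcomapDomain (fun a => p ^ e • a + d)
        (fun a b h => smul_right_injective _ hq.ne' (add_right_cancel h)) ∘ₗ
          (basisMonomials _ _).repr.toLinearMap).toAddMonoidHom
  have hφ : ∀ f a j, (coeff a (φ f)).coeff j = (coeff (p ^ e • a + d) f).coeff (p ^ e * j + v) :=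
    fun _ _ _ => rfl
  have key : ∀ k j w : ℕ, w < p ^ e → (p ^ e * k ≤ p ^ e * j + w ↔ k ≤ j) := fun k j w hw =>
    ⟨fun h => Nat.lt_succ_iff.1 (lt_of_mul_lt_mul_left (a := p ^ e) (by rw [Nat.mul_succ]; omega)
      hq.le), fun h => (Nat.mul_le_mul_left _ h).trans (Nat.le_add_right _ _)⟩
  have hadd : ∀ r r' : P (Polynomial (ZMod p)), (∀ f, φ (r ^ p ^ e * f) = r * φ f) →
      (∀ f, φ (r' ^ p ^ e * f) = r' * φ f) → ∀ f, φ ((r + r') ^ p ^ e * f) = (r + r') * φ f :=
    fun r r' h h' f => by rw [add_pow_char_pow, add_mul, map_add, h, h', add_mul]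
  refine ⟨φ, fun r => ?_, hφ⟩
  induction r using MvPolynomial.induction_on' with
  | add r r' h h' => exact hadd r r' h h'
  | monomial b m =>
    induction m using Polynomial.induction_on' with
    | add m m' h h' => rw [map_add]; exact hadd _ _ h h'
    | monomial k c =>
      intro f
      ext a j
      have h1 : p ^ e • b ≤ p ^ e • a + d ↔ b ≤ a := forall_congr' fun i => key _ _ _ (hd i)
      rw [hφ, monomial_pow, coeff_monomial_mul', coeff_monomial_mul', Polynomial.monomial_pow,
        ZMod.pow_card_pow, ← Polynomial.C_mul_X_pow_eq_monomial,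
        ← Polynomial.C_mul_X_pow_eq_monomial]
      by_cases hb : b ≤ a
      · obtain ⟨a, rfl⟩ := exists_add_of_le hb
        rw [if_pos hb, if_pos (h1.2 hb), mul_assoc, mul_assoc, Polynomial.coeff_C_mul,
          Polynomial.coeff_C_mul, Polynomial.coeff_X_pow_mul', Polynomial.coeff_X_pow_mul',
          mul_comm k, smul_add, add_assoc, add_tsub_cancel_left, add_tsub_cancel_left]
        by_cases hk : k ≤ j
        · obtain ⟨j, rfl⟩ := exists_add_of_le hk
          rw [if_pos hk, if_pos ((key _ _ _ hv).2 hk), hφ, mul_add, add_assoc, add_tsub_cancel_left,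
            add_tsub_cancel_left]
        · rw [if_neg hk, if_neg (mt (key _ _ _ hv).1 hk)]
      · rw [if_neg hb, if_neg (mt h1.1 hb)]
        rfl

theorem pq : PQStmt := by
  intro B _ s q hq φ hφ i n t f hf
  let T : Ideal (P B) :=
    { carrier := {f | ∀ g, φ (g * f) ∈ Q s i n ⊔ Ideal.span {(C s : P B) ^ t}}
      add_mem' := fun ha hb g => by rw [mul_add, map_add]; exact add_mem (ha g) (hb g)
      zero_mem' := fun g => by simp
      smul_mem' := fun c x hx g => by rw [smul_eq_mul, ← mul_assoc]; exact hx _ }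
  have h1 : Q s i (n * q + (q - 1)) ⊔ Ideal.span {(C s : P B) ^ (t * q)} ≤ T := by
    refine sup_le ?_ ((Ideal.span_singleton_le_iff_mem _).2 fun g => ?_)
    · rw [Q, Ideal.span_insert, ← Ideal.add_eq_sup, add_pow]
      refine Finset.sum_induction _ (· ≤ T) (fun _ _ => sup_le) bot_le fun j hj => ?_
      refine Ideal.mul_le_left.trans ?_
      rw [Ideal.span_singleton_pow, Ideal.span_singleton_pow,
        Ideal.span_singleton_mul_span_singleton, Ideal.span_singleton_le_iff_mem]
      intro g
      obtain ⟨m, hm⟩ := exists_add_of_le (Nat.lt_succ_iff.1 (Finset.mem_range.1 hj))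
      rw [hm, add_tsub_cancel_left, ← pow_mul]
      have e1 := Nat.div_add_mod j q
      have e2 := Nat.div_add_mod (3 * m) q
      have l1 := Nat.mod_lt j hq
      have l2 := Nat.mod_lt (3 * m) hq
      generalize j / q = a at e1
      generalize j % q = a' at e1 l1
      generalize 3 * m / q = b at e2
      generalize 3 * m % q = b' at e2 l2
      have h2 : 3 * n < 3 * a + b + 1 := lt_of_mul_lt_mul_left (a := q) (by
        have : q * (3 * a + b + 1) = 3 * (q * a) + q * b + q := by ring
        have : q * (3 * n) = 3 * (n * q) := by ring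
        omega) hq.le
      have h3 : g * (X i ^ j * uu s i ^ (3 * m)) =
          (X i ^ a * uu s i ^ b) ^ q * (g * X i ^ a' * uu s i ^ b') := by
        rw [← e1, ← e2]; ring
      rw [h3, hφ]
      refine Ideal.mem_sup_left (Ideal.mul_mem_right _ _ ?_)
      rw [← Nat.div_add_mod b 3, pow_add, pow_mul, ← mul_assoc]
      refine Ideal.mul_mem_right _ _ (Ideal.pow_le_pow_right (m := n) (n := a + b / 3)
        (by omega) ?_)
      rw [pow_add]
      exact Ideal.mul_mem_mul (Ideal.pow_mem_pow (Ideal.subset_span (by simp)) _)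
        (Ideal.pow_mem_pow (Ideal.subset_span (by simp)) _)
    · rw [mul_comm g, pow_mul, hφ]
      exact Ideal.mem_sup_right (Ideal.mul_mem_right _ _ (Ideal.mem_span_singleton_self _))
  simpa using h1 hf 1

end Pool.Agent.MP_961ca8_al.H15
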